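import Pool.Agent.W198.TC.Basic

set_option autoImplicit false

open Complex Filter Topology Set MeasureTheory

namespace TC

namespace Sum1

lemma ii {f g : ℝ → ℝ} (hf : Measurable f) {B : ℝ} (hB : ∀ x, |f x| ≤ B) (hg : Continuous g)
    (a b : ℝ) : IntervalIntegrable (fun x => f x * g x) volume a b := by
  rw [intervalIntegrable_iff]
  have h1 : IntervalIntegrable (fun x => B * |g x|) volume a b :=
    (continuous_const.mul hg.abs).intervalIntegrable a b
  rw [intervalIntegrable_iff] at h1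
  refine Integrable.mono' h1 (hf.mul hg.measurable).aestronglyMeasurable
    (Eventually.of_forall fun x => ?_)
  rw [Real.norm_eq_abs, abs_mul]
  exact mul_le_mul_of_nonneg_right (hB x) (abs_nonneg _)

lemma cs {h : ℝ → ℝ} (hm : Measurable h) {B : ℝ} (hB : ∀ x, |h x| ≤ B) {M : ℝ} (hM : 0 < M)
    (x : ℝ) : (∫ ξ in (0 : ℝ)..1, h ξ * gs (M * ξ - x)) ^ 2 ≤
      1 / M * ∫ ξ in (0 : ℝ)..1, h ξ ^ 2 * gs (M * ξ - x) := by
  have hw : Continuous (fun ξ => gs (M * ξ - x)) := gs_cont.comp (by fun_prop)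
  have hB2 : ∀ x, |h x ^ 2| ≤ B ^ 2 := fun x => by
    rw [abs_pow]
    exact pow_le_pow_left₀ (abs_nonneg _) (hB x) 2
  have i1 := ii hm hB hw 0 1
  have i2 : IntervalIntegrable (fun ξ => h ξ ^ 2 * gs (M * ξ - x)) volume 0 1 :=
    ii (hm.pow_const 2) hB2 hw 0 1
  have i3 : IntervalIntegrable (fun ξ => gs (M * ξ - x)) volume 0 1 := hw.intervalIntegrable 0 1
  set a := ∫ ξ in (0 : ℝ)..1, h ξ * gs (M * ξ - x) with ha
  set c := M * a with hc
  have hW : ∫ ξ in (0 : ℝ)..1, gs (M * ξ - x) ≤ 1 / M := by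
    rw [intervalIntegral.integral_of_le zero_le_one, ← gs_scale_integral hM x]
    exact setIntegral_le_integral (gs_scale_integrable hM x)
      (Eventually.of_forall fun _ => gs_nonneg _)
  have h0 : 0 ≤ ∫ ξ in (0 : ℝ)..1, (h ξ - c) ^ 2 * gs (M * ξ - x) :=
    intervalIntegral.integral_nonneg zero_le_one fun ξ _ => mul_nonneg (sq_nonneg _) (gs_nonneg _)
  have e : ∀ ξ, (h ξ - c) ^ 2 * gs (M * ξ - x) = (h ξ ^ 2 * gs (M * ξ - x) -
      2 * c * (h ξ * gs (M * ξ - x))) + c ^ 2 * gs (M * ξ - x) := by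
    intro ξ; ring
  simp_rw [e] at h0
  rw [intervalIntegral.integral_add (i2.sub (i1.const_mul _)) (i3.const_mul _),
    intervalIntegral.integral_sub i2 (i1.const_mul _), intervalIntegral.integral_const_mul,
    intervalIntegral.integral_const_mul, ← ha] at h0
  have h1 := mul_le_mul_of_nonneg_left hW (sq_nonneg c)
  have h2 : c ^ 2 * (1 / M) = M * a ^ 2 := by
    rw [hc]
    field_simp
  have h3 : 2 * c * a = 2 * (M * a ^ 2) := by rw [hc]; ring
  have h4 : M * a ^ 2 ≤ ∫ ξ in (0 : ℝ)..1, h ξ ^ 2 * gs (M * ξ - x) := by linarith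
  rw [one_div, ← div_eq_inv_mul, le_div_iff₀ hM]
  linarith

end Sum1

open Sum1 in
theorem sum1 (hk : S_KCUM) : S_SUM1 := by
  intro b h hA η hη
  obtain ⟨hsum, hKc, -⟩ := hk
  obtain ⟨B, hB⟩ := hA.bdd
  have hB2 : ∀ x, |h x ^ 2| ≤ B ^ 2 := fun x => by
    rw [abs_pow]
    exact pow_le_pow_left₀ (abs_nonneg _) (hB x) 2
  have hev := hA.w2.eventually_lt_const (lt_add_of_pos_right _ hη)
  obtain ⟨M1, hM1⟩ := eventually_atTop.1 hev
  refine ⟨max M1 1, fun M hM N => ?_⟩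
  have hM0 : 0 < M := lt_of_lt_of_le one_pos ((le_max_right _ _).trans hM)
  refine le_trans ?_ (hM1 M ((le_max_left _ _).trans hM)).le
  have hw : ∀ x : ℝ, Continuous (fun ξ => gs (M * ξ - x)) := fun x => gs_cont.comp (by fun_prop)
  -- substitution
  have hsub : (1 / M ^ 2) * ∫ y in (0 : ℝ)..M, (h (y / M)) ^ 2 * KK y =
      1 / M * ∫ ξ in (0 : ℝ)..1, h ξ ^ 2 * KK (M * ξ) := by
    have h1 := intervalIntegral.integral_comp_mul_left (a := 0) (b := 1)
      (fun y => (h (y / M)) ^ 2 * KK y) hM0.ne'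
    have h2 : ∀ ξ : ℝ, M * ξ / M = ξ := fun ξ => by field_simp
    simp only [h2, mul_zero, mul_one, smul_eq_mul] at h1
    rw [h1]
    field_simp
  rw [hsub]
  have h1 : ∑ n ∈ Finset.Icc 2 N, (cf h M n) ^ 2 ≤ ∑ n ∈ Finset.Icc 2 N, 1 / M *
      ∫ ξ in (0 : ℝ)..1, lam n ^ 2 * (h ξ ^ 2 * gs (M * ξ - Real.log n)) := by
    apply Finset.sum_le_sum
    intro n _
    unfold cf
    rw [mul_pow, intervalIntegral.integral_const_mul]
    have := mul_le_mul_of_nonneg_left (cs hA.meas hB hM0 (Real.log n)) (sq_nonneg (lam n))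
    refine this.trans (le_of_eq (by ring))
  refine h1.trans ?_
  rw [← Finset.mul_sum]
  apply mul_le_mul_of_nonneg_left _ (by positivity)
  have i2 : ∀ n : ℕ, IntervalIntegrable
      (fun ξ => lam n ^ 2 * (h ξ ^ 2 * gs (M * ξ - Real.log n))) volume 0 1 := fun n =>
    (ii (hA.meas.pow_const 2) hB2 (hw _) 0 1).const_mul _
  rw [← intervalIntegral.integral_finsetSum fun n _ => i2 n]
  apply intervalIntegral.integral_mono_on zero_le_one
  · have i3 := IntervalIntegrable.sum (Finset.Icc 2 N) (f := fun n ξ =>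
      lam n ^ 2 * (h ξ ^ 2 * gs (M * ξ - Real.log n))) fun n _ => i2 n
    refine i3.congr ?_
    intro ξ _
    exact Finset.sum_apply _ _ _
  · exact ii (hA.meas.pow_const 2) hB2 (hKc.comp (by fun_prop)) 0 1
  · intro ξ _
    have h2 : ∑ n ∈ Finset.Icc 2 N, lam n ^ 2 * (h ξ ^ 2 * gs (M * ξ - Real.log n)) =
        h ξ ^ 2 * ∑ n ∈ Finset.Icc 2 N, lam n ^ 2 * gs (M * ξ - Real.log n) := by
      rw [Finset.mul_sum]
      exact Finset.sum_congr rfl fun n _ => by ring
    rw [h2]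
    apply mul_le_mul_of_nonneg_left _ (sq_nonneg _)
    exact (hsum (M * ξ)).sum_le_tsum _ fun n _ => mul_nonneg (sq_nonneg _) (gs_nonneg _)

end TC
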